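import Pool.Agent.H559.US.Fin
import Pool.Agent.H559.HY.FinBH

set_option autoImplicit false

/-!
# Polylogarithmic gaps between the simultaneous prime values of all systems of polynomials, in the random sieve model

For every prime `q` a residue class `a q` modulo `q` is drawn uniformly and independently. The random primes are the
integers `v ≥ 3` which are, for all primes `q ≤ z v`, not in the class `0` modulo `q` if `q ≤ (log v) ^ c`, and not in the
class `a q` modulo `q` if `q > (log v) ^ c`. This is the model of Banks, Ford and Tao (*Large prime gaps and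
probabilistic models*) in which the small primes sieve out the class `0` as they do for the true primes. The sieving
limit `z` is any nondecreasing function for which `∏_{q ≤ z v} (1 - 1 / q)` is asymptotic to `1 / log v`; the choice `zBFT`
of Banks, Ford and Tao is one of them. The exponent `c` is any number larger than `1`.

The theorem: let `k`, `D` and `ε > 0` be given. There is an exponent `B` such that almost surely, if `N` is large, then
EVERY interval `(x, x + N]` contains at least `N ^ (1 - ε)` integers `n` for which all the `|F i n|` are random primes, for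
ALL systems of `k` polynomials `F i` of degrees at most `D` without a fixed prime divisor, where `x` and the coefficients
of the polynomials may be as large as `H`, `(log H) ^ B ≤ N`. The polynomials need only be nonconstant modulo the primes
larger than `log N` (for instance monic; a condition of this kind is needed, as the random primes avoid the class `a q`
modulo `q` for the large primes `q`).

So in the model a polylogarithmic bound holds at the same time for the gaps between random primes (`X`), between the
random twin primes, or the members of any admissible tuple with shifts of any size (`X + h i`), for the least prime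
which is the smaller summand in the Goldbach representations of `h` (`X`, `h - X`), for the least random prime `p` with
`p + h` a random prime, for the least `n` and the gaps of the `n` with `n ^ 2 + a` a random prime, and so on, uniformly
in all parameters. Nothing is assumed about the relations between the sizes of the values of the different polynomials.
-/

open MeasureTheory ProbabilityTheory Filter Topology Polynomial

namespace Pool.Agent.Results.MP_711652_nt.AllSystemsRandomSieve

/-- `V m = ∏ (1 - 1 / q)` over the primes `q ≤ m` -/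
noncomputable def V (m : ℕ) : ℝ := ∏ q ∈ (Finset.range (m + 1)).filter Nat.Prime, (1 - 1 / (q : ℝ))

/-- the classes `a q` are independent, and `a q` is uniform on `0, …, q - 1` for every prime `q` -/
structure Model {Ω : Type} [MeasurableSpace Ω] (P : Measure Ω) (a : ℕ → Ω → ℕ) : Prop where
  measurable : ∀ q, Measurable (a q)
  independent : iIndepFun a P
  uniform : ∀ q, q.Prime → ∀ r < q, P.real {ω | a q ω = r} = 1 / q

/-- the sieving limit of Banks, Ford and Tao: the largest `m` with `∏_{q ≤ m} (1 - 1 / q)⁻¹ ≤ log n` -/
noncomputable def zBFT (n : ℕ) : ℕ := sSup {m : ℕ | (V m)⁻¹ ≤ Real.log n}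

/-- the admissible sieving limits: the density of the random primes near `v` is asymptotic to `1 / log v` -/
def Limit (z : ℕ → ℕ) : Prop := Monotone z ∧ Tendsto (fun v => V (z v) * Real.log v) atTop (𝓝 1)

open Classical in
/-- the set of the random primes of a sample -/
def R {Ω : Type} (z : ℕ → ℕ) (c : ℝ) (a : ℕ → Ω → ℕ) (ω : Ω) : Set ℕ :=
  {v | 3 ≤ v ∧ ∀ q ≤ z v, q.Prime → v % q ≠ if (q : ℝ) ≤ Real.log v ^ c then 0 else a q ω}

/-- the systems: polynomials of degree at most `D` with coefficients at most `H`, nonconstant modulo all primes larger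
than `log N`; no prime divides all the products of the values -/
def System {k : ℕ} (D H N : ℕ) (F : Fin k → ℤ[X]) : Prop :=
  (∀ i, (F i).natDegree ≤ D ∧ (∀ j, |(F i).coeff j| ≤ H) ∧
    ∀ p : ℕ, p.Prime → Real.log N < p → ∃ j : ℕ, j ≠ 0 ∧ ¬ (p : ℤ) ∣ (F i).coeff j) ∧
  ∀ p : ℕ, p.Prime → ∃ n : ℤ, ¬ (p : ℤ) ∣ ∏ i, (F i).eval n

/-- the number of the `x < n ≤ x + N` for which all the `|F i n|` are in `A` -/
noncomputable def count {k : ℕ} (A : Set ℕ) (F : Fin k → ℤ[X]) (x N : ℕ) : ℕ :=
  {n : ℕ | x < n ∧ n ≤ x + N ∧ ∀ i, ((F i).eval (n : ℤ)).natAbs ∈ A}.ncard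

theorem result :
    (∃ (Ω : Type) (_ : MeasurableSpace Ω) (P : Measure Ω) (a : ℕ → Ω → ℕ), Model P a) ∧ Limit zBFT ∧
    ∀ c : ℝ, 1 < c → ∀ (k D : ℕ) (ε : ℝ), 0 < ε → ∃ B : ℝ, 0 < B ∧
      ∀ z : ℕ → ℕ, Limit z → ∀ (Ω : Type) [MeasurableSpace Ω] (P : Measure Ω) (a : ℕ → Ω → ℕ), Model P a →
        ∀ᵐ ω ∂P, ∃ N₀ : ℕ, ∀ N ≥ N₀, ∀ H : ℕ, Real.log H ^ B ≤ N → ∀ x ≤ H, ∀ F : Fin k → ℤ[X], System D H N F →
          (N : ℝ) ^ (1 - ε) ≤ count (R z c a ω) F x N := by
  classical
  refine ⟨?_, ⟨Pool.Agent.T2H32.BF.z0_mono, Pool.Agent.T2H32.BF.z0_lim⟩, ?_⟩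
  · obtain ⟨Ω, i, P, a, h⟩ := Pool.Agent.T2H32.BF.exists_model
    exact ⟨Ω, i, P, a, h.measurable, h.independent, h.uniform⟩
  · intro c hc k D ε hε
    obtain ⟨B, hB, hmain⟩ := Pool.Agent.H559.US.poly_ae c hc k D ε hε
    refine ⟨B, hB, fun z hz Ω _ P a hmod => ?_⟩
    have h : Pool.Agent.T2H32.BF.Model P a := ⟨hmod.measurable, hmod.independent, hmod.uniform⟩
    filter_upwards [hmain z hz Ω P a h] with ω hω
    obtain ⟨N₀, hN₀⟩ := hω
    refine ⟨N₀, fun N hN H hH x hx F hF => ?_⟩
    have e : R z c a ω = Pool.Agent.H559.HY.RS z (Pool.Agent.H559.HY.WW c) (fun p => a p ω) := by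
      ext v
      simp only [R, Pool.Agent.H559.HY.RS, Set.mem_ofPred_eq]
      refine and_congr_right fun hv => ?_
      refine forall_congr' fun q => forall_congr' fun _ => forall_congr' fun _ => ?_
      have h0 : 0 ≤ Real.log v ^ c := Real.rpow_nonneg (Real.log_nonneg (by
        have : 1 ≤ v := by omega
        exact_mod_cast this)) c
      have h1 : (q : ℝ) ≤ Real.log v ^ c ↔ q ≤ Pool.Agent.H559.HY.WW c v := (Nat.le_floor_iff h0).symm
      by_cases h2 : (q : ℝ) ≤ Real.log v ^ c
      · rw [if_pos h2, if_pos (h1.1 h2)]
      · rw [if_neg h2, if_neg (fun h3 => h2 (h1.2 h3))]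
    have h1 := hN₀ N hN H hH x hx F hF
    unfold count
    rw [e]
    exact h1

end Pool.Agent.Results.MP_711652_nt.AllSystemsRandomSieve
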