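import Pool.Agent.H560.SI.Top

/-!
# Products of an odd number of large primes in all intervals of exponent above `1 / 4`, over
`F_q[X]`, `q` even
-/

namespace Pool.Agent.Results.MP_711652_nt.BothParitiesBelowSquareRoot

open Polynomial

/-- The number of the irreducible factors of `F`, counted with multiplicity. -/
noncomputable def numFactors {K : Type} [Field K] (F : K[X]) : ℕ :=
  Multiset.card (UniqueFactorizationMonoid.factors F)

/-- The squarefree `f` with `deg (f - g) < h` which have no irreducible factor of degree at most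
`y`: products of distinct irreducible polynomials of degree larger than `y`. -/
def Rough {K : Type} [Field K] (g : K[X]) (h : ℕ) (y : ℝ) : Set K[X] :=
  {f | (f - g).degree < (h : WithBot ℕ) ∧ Squarefree f ∧
    ∀ P : K[X], Irreducible P → P ∣ f → y < (P.natDegree : ℝ)}

/-- Let `K` be a finite field with an even number `q` of elements and `θ > 1/4`. There are
`κ, c > 0` such that for all large `n`, all `h` with `θ n ≤ h ≤ n` and every monic `g` of degree
`n`, the interval of the `q ^ h` polynomials `f` with `deg (f - g) < h` contains at least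
`c q ^ h / n` products of an odd number, and at least `c q ^ h / n` products of an even number, of
distinct irreducible polynomials of degree larger than `κ n`. -/
theorem result (K : Type) [Field K] [Fintype K] [CharP K 2] (θ : ℝ) (hθ : 1 / 4 < θ) :
    ∃ κ c : ℝ, 0 < κ ∧ 0 < c ∧ ∃ n₀ : ℕ, ∀ n : ℕ, n₀ ≤ n → ∀ h : ℕ, θ * n ≤ (h : ℝ) → h ≤ n →
      ∀ g : K[X], g.Monic → g.natDegree = n →
        c * (Fintype.card K : ℝ) ^ h / n ≤ {f ∈ Rough g h (κ * n) | Odd (numFactors f)}.ncard ∧
        c * (Fintype.card K : ℝ) ^ h / n ≤ {f ∈ Rough g h (κ * n) | Even (numFactors f)}.ncard := by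
  obtain ⟨κ, c, hκ, hc, n₀, hn₀⟩ := Pool.Agent.H560.SI.almost_top K θ hθ
  refine ⟨κ, c, hκ, hc, n₀, fun n hn h hh hhn g hg hgn => ?_⟩
  obtain ⟨h1, h2⟩ := hn₀ n hn h hh hhn g hg hgn
  have key : ∀ p : K[X] → Prop, {f ∈ Rough g h (κ * n) | p f} =
      {f : K[X] | (f - g).degree < (h : WithBot ℕ) ∧ Squarefree f ∧ p f ∧
        ∀ P : K[X], Irreducible P → P ∣ f → κ * n < (P.natDegree : ℝ)} := by
    intro p
    ext f
    constructor
    · rintro ⟨⟨a1, a2, a3⟩, a4⟩
      exact ⟨a1, a2, a4, a3⟩
    · rintro ⟨a1, a2, a4, a3⟩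
      exact ⟨⟨a1, a2, a3⟩, a4⟩
  rw [key (fun f => Odd (numFactors f)), key (fun f => Even (numFactors f))]
  exact ⟨h1, h2⟩

end Pool.Agent.Results.MP_711652_nt.BothParitiesBelowSquareRoot
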