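import Pool.Agent.H301.SY.Out

set_option autoImplicit false

/-!
# No function of level `Q` sees more of an interval of length `B log Q loglog Q` than the primes up to `log Q` show

A real function `w` of level `Q` is a sum of functions with periods `d ≤ Q`; there is no condition on sign, size or
shape: upper and lower bound sieves, weights of Selberg or Maynard type, restricted to residue classes or not, and all
differences and products of these which have level `Q`. To find long intervals with few primes (or short ones with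
many) by a sieve means to find such a `w` with positive mean which is positive only at intervals `(n, n + U]` with
few (many) integers free of the primes `≤ Q`. We determine what is possible for all `U ≥ B log Q loglog Q`, `B = B(ε)`:

* with respect to the positive part of any such `w` the mean number of the integers `h ≤ U` with `n + h` free of the
  primes `≤ Q`, divided by the expected number, equals up to `ε` the same mean for the primes `≤ log Q`; this holds
  uniformly for the `h` in an arbitrary set `A(n)` which may depend on `n` through the primes `≤ log Q`;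
* so every such `w` is positive at intervals which are not poorer (not richer) in integers free of the primes `≤ Q` than
  the poorest (richest) interval is in integers free of the primes `≤ log Q`, up to `ε`;
* the residue classes modulo the product of the primes `≤ (log Q) / 2` realise each of these values.

Thus for such `U` the gap problem for sieves is the problem of sieving an interval of length `U` by the primes up to
`log Q` (the problem of Jacobsthal), for functions of any sign and in both directions.

Proof: inequalities for the successive hits under the positive part of a real function of level `Q`, all scales between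
`(log Q)^(1+2a)` and `Q` at once. The survivors, divided by the density, form a martingale; a kernel which undoes hits
(library, project N422) bounds its decrease, and a kernel which adds hits, constructed here, its increase. One more
inequality between `C log Q` and `(log Q)^(1+2a)`, an upper bound sieve below, and long intervals by blocks.
-/

open Finset

namespace Pool.Agent.Results.MP_711652_nt.EverySieveSeesOnlySmallPrimes

/-- the product of the primes up to `z` -/
def period (z : ℕ) : ℕ := ∏ p ∈ (Icc 1 z).filter Nat.Prime, p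

/-- the density `∏_{p ≤ z} (1 - 1 / p)` of the integers without prime factors `≤ z` -/
noncomputable def density (z : ℕ) : ℝ := ∏ p ∈ (Icc 1 z).filter Nat.Prime, (1 - 1 / (p : ℝ))

/-- the number of the `h ∈ A` for which `n + h` has no prime factor `≤ z` -/
noncomputable def rough (A : Finset ℕ) (z n : ℕ) : ℕ := {h : ℕ | h ∈ A ∧ ∀ p : ℕ, p.Prime → p ≤ z → ¬ p ∣ n + h}.ncard

/-- the number of the integers in `(n, n + U]` without prime factors `≤ z`, divided by `U ∏_{p ≤ z} (1 - 1 / p)` -/
noncomputable def ratio (U z n : ℕ) : ℝ := (rough (Icc 1 U) z n : ℝ) / (U * density z)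

/-- an arbitrary real function of level `Q` of the residues modulo the primes: `w(n) = ∑ c_d(n mod d)`, `d ≤ Q`
squarefree -/
noncomputable def weight (Q : ℕ) (c : ℕ → ℕ → ℝ) (n : ℕ) : ℝ := ∑ d ∈ (Icc 1 Q).filter Squarefree, c d (n % d)

/-- an arbitrary real function of level `Q`: `w(n) = ∑_{d ≤ Q} c_d(n mod d)` -/
noncomputable def weightAll (Q : ℕ) (c : ℕ → ℕ → ℝ) (n : ℕ) : ℝ := ∑ d ∈ Icc 1 Q, c d (n % d)

/-- the mean value of `F(n)`, `0 ≤ n < N` -/
noncomputable def mean (N : ℕ) (F : ℕ → ℝ) : ℝ := (∑ n ∈ range N, F n) / (N : ℝ)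

/-- the mean value of `F(n)` over the `n ≡ b mod W`, `0 ≤ n < period Q` -/
noncomputable def classMean (Q W b : ℕ) (F : ℕ → ℝ) : ℝ :=
  (∑ n ∈ (range (period Q)).filter (fun n => n % W = b % W), F n) /
    (((range (period Q)).filter (fun n => n % W = b % W)).card : ℝ)

/-- For every `ε > 0` there is `B` such that for all large `Q` and all `U ≥ B log Q loglog Q`: (1) for every real
function `w` of level `Q` and all sets `A(n) ⊆ {1, …, U}` which depend only on `n` modulo the product of the primes
`≤ log Q`, the means of `w⁺(n) #{h ∈ A(n) : n + h free of the primes ≤ z} / ∏_{p ≤ z} (1 - 1 / p)` for `z = Q` and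
`z = log Q` differ by at most `ε U` times the mean of `|w|`; (2) every real function of level `Q` with positive mean
is positive at some `n` for which the interval `(n, n + U]` is not poorer, up to `ε`, than the poorest interval at
`log Q`, and at some `n` for which it is not richer, up to `ε`, than the richest interval at `log Q`; (3) the product
`W` of the primes up to `⌊log Q⌋ / 2` is at most `Q`, and the mean of the ratio over the class `b mod W` is the ratio
of `b` at `log Q`, up to `ε`. -/
theorem result (ε : ℝ) (hε : 0 < ε) : ∃ (B : ℝ) (Q₀ : ℕ), ∀ Q : ℕ, Q₀ ≤ Q → ∀ U : ℕ,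
    B * (Real.log Q * Real.log (Real.log Q)) ≤ U →
    (∀ (c : ℕ → ℕ → ℝ) (A : ℕ → Finset ℕ), (∀ n, A n ⊆ Icc 1 U) → (∀ n, A (n + period ⌊Real.log Q⌋₊) = A n) →
      |mean (period Q) (fun n => max (weight Q c n) 0 * (rough (A n) Q n / density Q)) -
        mean (period Q) (fun n => max (weight Q c n) 0 *
          (rough (A n) ⌊Real.log Q⌋₊ n / density ⌊Real.log Q⌋₊))| ≤
        ε * U * mean (period Q) (fun n => |weight Q c n|)) ∧
    (∀ c : ℕ → ℕ → ℝ, 0 < mean Q.factorial (weightAll Q c) → ∀ κ : ℝ,
      ((∀ m, κ ≤ ratio U ⌊Real.log Q⌋₊ m) → ∃ n, 0 < weightAll Q c n ∧ κ - ε ≤ ratio U Q n) ∧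
      ((∀ m, ratio U ⌊Real.log Q⌋₊ m ≤ κ) → ∃ n, 0 < weightAll Q c n ∧ ratio U Q n ≤ κ + ε)) ∧
    (period (⌊Real.log Q⌋₊ / 2) ≤ Q ∧ ∀ b : ℕ,
      |classMean Q (period (⌊Real.log Q⌋₊ / 2)) b (ratio U Q) - ratio U ⌊Real.log Q⌋₊ b| ≤ ε) := by
  obtain ⟨B1, h1⟩ := Pool.Agent.H301.SY.longZ ε hε
  obtain ⟨B2, hB2, h2⟩ := Pool.Agent.H301.SY.reachZ ε hε
  obtain ⟨B3, hB3, h3⟩ := Pool.Agent.H301.SY.classZ ε hε
  have hlog : Filter.Tendsto (fun Q : ℕ => Real.log (Q : ℝ)) Filter.atTop Filter.atTop :=
    Real.tendsto_log_atTop.comp tendsto_natCast_atTop_atTop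
  obtain ⟨Q₀, hQ₀⟩ := ((hlog.eventually h1).and ((hlog.eventually h2).and ((hlog.eventually h3).and
    (hlog.eventually_ge_atTop 3)))).exists_forall_of_atTop
  refine ⟨max B1 (max B2 B3), Q₀, fun Q hQ U hU => ?_⟩
  obtain ⟨g1, g2, g3, g4⟩ := hQ₀ Q hQ
  have hLL : 0 ≤ Real.log Q * Real.log (Real.log Q) :=
    mul_nonneg (by linarith) (Real.log_nonneg (by linarith))
  have hU1 : B1 * (Real.log Q * Real.log (Real.log Q)) ≤ U :=
    (mul_le_mul_of_nonneg_right (le_max_left _ _) hLL).trans hU
  have hU2 : B2 * (Real.log Q * Real.log (Real.log Q)) ≤ U :=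
    (mul_le_mul_of_nonneg_right ((le_max_left _ _).trans (le_max_right _ _)) hLL).trans hU
  have hU3 : B3 * (Real.log Q * Real.log (Real.log Q)) ≤ U :=
    (mul_le_mul_of_nonneg_right ((le_max_right _ _).trans (le_max_right _ _)) hLL).trans hU
  have hr : ∀ (A : Finset ℕ) (z n : ℕ), A ⊆ Icc 1 U → rough A z n = (A ∩ Pool.Agent.N422.LG.Sv U z n).card := by
    intro A z n hA
    unfold rough Pool.Agent.N422.LG.Sv
    rw [← Set.ncard_coe_finset]
    congr 1
    ext x
    simp only [Set.mem_ofPred_eq, coe_inter, coe_filter, mem_Icc, mem_filter, Set.mem_inter_iff, mem_coe]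
    constructor
    · rintro ⟨a1, a2⟩
      exact ⟨a1, mem_Icc.1 (hA a1), fun p hp => a2 p hp.2 hp.1.2⟩
    · rintro ⟨a1, a2, a3⟩
      exact ⟨a1, fun p hp hpz => a3 p ⟨⟨hp.one_lt.le, hpz⟩, hp⟩⟩
  have hrl : ∀ z n : ℕ, ratio U z n = Pool.Agent.H301.SY.rl U z n := by
    intro z n
    unfold ratio
    rw [hr _ _ _ (Finset.Subset.refl _), Pool.Agent.H301.SY.Icc_inter]
    rfl
  refine ⟨?_, ?_, ?_⟩
  · intro c A hA hper
    have key := g1 Q rfl U hU1 c A hA hper
    have e1 : ∀ z : ℕ, mean (period Q) (fun n => max (weight Q c n) 0 * (rough (A n) z n / density z)) =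
        Pool.Agent.N422.LR.mP Q (fun n => max (Pool.Agent.N422.LR.ws Q c n) 0 *
          ((A n ∩ Pool.Agent.N422.LG.Sv U z n).card : ℝ)) / Pool.Agent.N422.LG.VV z := by
      intro z
      have e2 : ∀ n, max (weight Q c n) 0 * (rough (A n) z n / density z) =
          (max (Pool.Agent.N422.LR.ws Q c n) 0 * ((A n ∩ Pool.Agent.N422.LG.Sv U z n).card : ℝ)) /
            Pool.Agent.N422.LG.VV z := by
        intro n
        rw [hr (A n) z n (hA n), ← mul_div_assoc]
        rfl
      unfold mean
      rw [sum_congr rfl fun n _ => e2 n, ← sum_div, div_right_comm]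
      rfl
    rw [e1, e1]
    exact key
  · intro c hc κ
    simp only [hrl]
    exact g2 Q rfl U hU2 c hc κ
  · refine ⟨(g3 Q rfl U hU3 0).1, fun b => ?_⟩
    have key := (g3 Q rfl U hU3 b).2
    have e1 : classMean Q (period (⌊Real.log Q⌋₊ / 2)) b (ratio U Q) =
        (∑ n ∈ Pool.Agent.H301.SY.cls Q (Pool.Agent.N422.LR.PP (⌊Real.log Q⌋₊ / 2)) b,
          Pool.Agent.H301.SY.rl U Q n) /
        ((Pool.Agent.H301.SY.cls Q (Pool.Agent.N422.LR.PP (⌊Real.log Q⌋₊ / 2)) b).card : ℝ) := by
      unfold classMean
      simp only [hrl]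
      rfl
    rw [e1, hrl]
    exact key

end Pool.Agent.Results.MP_711652_nt.EverySieveSeesOnlySmallPrimes
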