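import Mathlib
import Pool.Agent.H617.PF.D

/-!
Long intervals without irreducible polynomials near every `p`-th power in `K[X]`, for a finite
field `K` of odd characteristic `p`, and their number.
-/

open Polynomial

/-- Let `p` be an odd prime, `K` a finite field of characteristic `p` with `q` elements, and let
`T k = (p (k + 4) + 2) q ^ ((p - 1) (k + 4))`. (1) For all `k ≥ 1`, all `s` and all `Y` in `K[X]`
with `deg Y > T k` there is `A` of the same degree as `X ^ s Y ^ p`, with
`deg (A - X ^ s Y ^ p) ≤ s + p (T k + 1)`, such that none of the `q ^ (p k)` polynomials `B` with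
`deg (B - A) < p k` is irreducible. (2) For all `k ≥ 1` and `n ≥ p (T k + 2)` there are
`q ^ (⌊n / p⌋ - T k - 2)` monic `A` of degree `n` with this property of their neighbours, at
mutual distances `deg (A - A') > p T k`. -/
theorem Pool.Agent.Results.MP_711652_nt.NearEveryPthPower.result
    (p : ℕ) (hp : p.Prime) (hp2 : p ≠ 2) (K : Type*) [Field K] [Fintype K] [CharP K p]
    (T : ℕ → ℕ)
    (hT : ∀ k, T k = (p * (k + 4) + 2) * Fintype.card K ^ ((p - 1) * (k + 4))) :
    (∀ k s : ℕ, 1 ≤ k → ∀ Y : K[X], T k + 1 ≤ Y.natDegree →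
      ∃ A : K[X], A.natDegree = s + p * Y.natDegree ∧
        (A - X ^ s * Y ^ p).natDegree ≤ s + p * (T k + 1) ∧
        ∀ B : K[X], (B - A).degree < ((p * k : ℕ) : WithBot ℕ) → ¬ Irreducible B) ∧
    (∀ k n : ℕ, 1 ≤ k → p * (T k + 2) ≤ n →
      ∃ S : Finset K[X], S.card = Fintype.card K ^ (n / p - (T k + 2)) ∧
        (∀ A ∈ S, A.Monic ∧ A.natDegree = n ∧
          ∀ B : K[X], (B - A).degree < ((p * k : ℕ) : WithBot ℕ) → ¬ Irreducible B) ∧
        ∀ A ∈ S, ∀ A' ∈ S, A ≠ A' → p * T k < (A - A').natDegree) := by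
  have : Fact p.Prime := ⟨hp⟩
  have hT' : ∀ k, T k = Pool.Agent.H617.PF.size p (Fintype.card K) k := hT
  refine ⟨?_, ?_⟩
  · intro k s hk Y hY
    rw [hT' k] at hY ⊢
    exact Pool.Agent.H617.PF.near_all_odd p hp2 k s hk Y hY
  · intro k n hk hn
    rw [hT' k] at hn ⊢
    exact Pool.Agent.H617.PF.count_odd p hp2 k n hk hn
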